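import Pool.Agent.H43.BZ.Stm4

/-!
# For `γ ≥ 0` mass and energy bound the collision moment at velocity scale `R`
-/

set_option autoImplicit false

open MeasureTheory Metric Set Filter Topology
open scoped RealInnerProductSpace ENNReal

namespace Pool.Agent.H588.BZ

open Pool.Agent.H43.BZ

theorem rpow_le_one_add_sq {t γ : ℝ} (ht : 0 ≤ t) (h0 : 0 ≤ γ) (h2 : γ ≤ 2) :
    t ^ γ ≤ 1 + t ^ 2 := by
  rcases le_total t 1 with h | h
  · have := Real.rpow_le_one ht h h0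
    have := sq_nonneg t
    linarith
  · have h3 := Real.rpow_le_rpow_of_exponent_le h h2
    have h4 : t ^ (2 : ℝ) = t ^ 2 := by
      rw [← Real.rpow_natCast]
      norm_num
    rw [h4] at h3
    linarith

theorem kkR_nonneg {d : ℕ} (γ s : ℝ) {R : ℝ} (hR : 0 < R) (v w : E d) : 0 ≤ kkR γ s R v w := by
  unfold kkR
  have : 0 ≤ 1 + ‖w‖ / R := by positivity
  positivity

theorem kkR_le {d : ℕ} {γ s R : ℝ} (h0 : 0 ≤ γ) (h2 : γ ≤ 2) (hs : γ + 2 * s ≤ 2) (hR : 0 < R)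
    (v w : E d) : kkR γ s R v w ≤ 2 * R ^ γ * (1 + ‖w‖ ^ 2 / R ^ 2) := by
  have hw : 0 ≤ ‖w‖ := norm_nonneg w
  have hM : 1 ≤ 1 + ‖w‖ / R := by
    have : 0 ≤ ‖w‖ / R := by positivity
    linarith
  have hM0 : 0 < 1 + ‖w‖ / R := by linarith
  have hL : 0 < R + ‖w‖ := by positivity
  have hLe : R + ‖w‖ = R * (1 + ‖w‖ / R) := by field_simp
  have hr : 0 ≤ ‖v - w‖ := norm_nonneg _
  have hq : 0 ≤ ‖v - w‖ / (R + ‖w‖) := by positivity
  have h1 := rpow_le_one_add_sq hq h0 h2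
  rw [Real.div_rpow hr hL.le, div_le_iff₀ (Real.rpow_pos_of_pos hL γ)] at h1
  have hden : 0 < 1 + (‖v - w‖ / (R + ‖w‖)) ^ 2 := by positivity
  have hRg : 0 < R ^ γ := Real.rpow_pos_of_pos hR γ
  have hLg : (R + ‖w‖) ^ γ = R ^ γ * (1 + ‖w‖ / R) ^ γ := by
    rw [hLe, Real.mul_rpow hR.le hM0.le]
  have h5 : (1 + ‖w‖ / R) ^ (2 : ℝ) = (1 + ‖w‖ / R) ^ (2 : ℕ) := by
    rw [← Real.rpow_natCast]
    norm_num
  have h4 := Real.rpow_le_rpow_of_exponent_le hM hs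
  rw [h5] at h4
  have h6 : (1 + ‖w‖ / R) ^ (2 : ℕ) ≤ 2 * (1 + ‖w‖ ^ 2 / R ^ 2) := by
    have h7 := sq_nonneg (1 - ‖w‖ / R)
    have h8 : ‖w‖ ^ 2 / R ^ 2 = (‖w‖ / R) ^ 2 := by rw [div_pow]
    rw [h8]
    nlinarith
  have h3 : 0 ≤ (1 + ‖w‖ / R) ^ (2 * s) := (Real.rpow_pos_of_pos hM0 _).le
  unfold kkR
  rw [div_le_iff₀ hden]
  calc ‖v - w‖ ^ γ * (1 + ‖w‖ / R) ^ (2 * s) ≤
      (1 + (‖v - w‖ / (R + ‖w‖)) ^ 2) * (R + ‖w‖) ^ γ * (1 + ‖w‖ / R) ^ (2 * s) :=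
        mul_le_mul_of_nonneg_right h1 h3
    _ = R ^ γ * (1 + ‖w‖ / R) ^ (γ + 2 * s) * (1 + (‖v - w‖ / (R + ‖w‖)) ^ 2) := by
        rw [hLg, Real.rpow_add hM0]
        ring
    _ ≤ 2 * R ^ γ * (1 + ‖w‖ ^ 2 / R ^ 2) * (1 + (‖v - w‖ / (R + ‖w‖)) ^ 2) := by
        refine mul_le_mul_of_nonneg_right ?_ hden.le
        calc R ^ γ * (1 + ‖w‖ / R) ^ (γ + 2 * s) ≤ R ^ γ * (2 * (1 + ‖w‖ ^ 2 / R ^ 2)) :=
              mul_le_mul_of_nonneg_left (h4.trans h6) hRg.le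
          _ = 2 * R ^ γ * (1 + ‖w‖ ^ 2 / R ^ 2) := by ring

theorem LAMRH : S_LAMRH := by
  intro d hd s γ R hs hs1 hγ hγs hR f t A₁ A₂ hf hmeas hint hA1 hA2
  unfold LamR
  have hγ2 : γ ≤ 2 := by linarith
  apply ciSup_le
  rintro ⟨x, v⟩
  have hI1 : Integrable (fun w => f t x w) := by
    refine (hint x).mono' (hmeas x).aestronglyMeasurable (ae_of_all _ fun w => ?_)
    rw [Real.norm_of_nonneg (hf x w)]
    have h1 : 1 ≤ (1 + ‖w‖) ^ (2 : ℕ) := by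
      have := norm_nonneg w
      nlinarith
    calc f t x w = f t x w * 1 := (mul_one _).symm
      _ ≤ f t x w * (1 + ‖w‖) ^ (2 : ℕ) := mul_le_mul_of_nonneg_left h1 (hf x w)
  have hI2 : Integrable (fun w => f t x w * ‖w‖ ^ 2) := by
    refine (hint x).mono' ((hmeas x).mul (measurable_norm.pow_const 2)).aestronglyMeasurable
      (ae_of_all _ fun w => ?_)
    rw [Real.norm_of_nonneg (mul_nonneg (hf x w) (sq_nonneg _))]
    refine mul_le_mul_of_nonneg_left ?_ (hf x w)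
    have := norm_nonneg w
    nlinarith
  have hRg : 0 < R ^ γ := Real.rpow_pos_of_pos hR γ
  have e : ∀ w, f t x w * (2 * R ^ γ * (1 + ‖w‖ ^ 2 / R ^ 2)) =
      2 * R ^ γ * f t x w + 2 * R ^ γ / R ^ 2 * (f t x w * ‖w‖ ^ 2) := by
    intro w
    have := hR.ne'
    field_simp
  have hI3 : Integrable (fun w => 2 * R ^ γ * f t x w) := hI1.const_mul _
  have hI4 : Integrable (fun w => 2 * R ^ γ / R ^ 2 * (f t x w * ‖w‖ ^ 2)) := hI2.const_mul _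
  have hI : Integrable (fun w => f t x w * (2 * R ^ γ * (1 + ‖w‖ ^ 2 / R ^ 2))) := by
    simp only [e]
    exact hI3.add hI4
  refine le_trans (integral_mono_of_nonneg (ae_of_all _ fun w => ?_) hI (ae_of_all _ fun w => ?_))
    ?_
  · exact mul_nonneg (hf x w) (kkR_nonneg γ s hR v w)
  · exact mul_le_mul_of_nonneg_left (kkR_le hγ hγ2 hγs hR v w) (hf x w)
  · simp only [e]
    rw [integral_add hI3 hI4, integral_const_mul, integral_const_mul]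
    have h1 := mul_le_mul_of_nonneg_left (hA1 x) (show 0 ≤ 2 * R ^ γ by positivity)
    have h2 := mul_le_mul_of_nonneg_left (hA2 x) (show 0 ≤ 2 * R ^ γ / R ^ 2 by positivity)
    have e2 : 2 * R ^ γ * (A₁ + A₂ / R ^ 2) = 2 * R ^ γ * A₁ + 2 * R ^ γ / R ^ 2 * A₂ := by
      have := hR.ne'
      field_simp
    rw [e2]
    exact add_le_add h1 h2

end Pool.Agent.H588.BZ
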